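import Pool.Agent.Helper63.Q3.J1

/-!
# Project A1 (MP_a499ba_nt), extension to all primitive real characters: block J1psi

The real primitive characters are `n ↦ ψ n * (n / q)`, `q` odd squarefree, `ψ` one of `1`, `χ₄`, `χ₈`, `χ₈'`.
-/

set_option autoImplicit false

namespace Pool.Agent.Helper5.Psi

open Finset Pool.Agent.Helper11.Q3 Pool.Agent.Helper63.Q3

/-- the sign at the prime `p` -/
noncomputable def zqp (ψ : ℕ → ℤ) (q p : ℕ) : ℝ := if p ∣ q ∨ ψ p = 0 then 1 else -(ψ p * jacobiSym p q : ℝ)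

/-- the mean of the sign at `p` -/
noncomputable def bps (ψ : ℕ → ℤ) (p : ℕ) : ℝ := if p = 2 then (if ψ 2 = 0 then 1 else 0) else 1 / ((p : ℝ) + 1)

theorem expand_w {Q : ℕ} {S : Finset ℕ} (hS : ∀ p ∈ S, p.Prime) (w : ℕ → ℝ) :
    ∑ q ∈ OS Q, ∏ p ∈ S, (w p * (jacobiSym p q : ℝ) + (if p ∣ q then 1 else 0)) = ∑ T ∈ S.powerset, (∏ p ∈ T, w p) *
      ∑ q ∈ (OS Q).filter (fun q => (∏ p ∈ S \ T, p) ∣ q), (jacobiSym ((∏ p ∈ T, p : ℕ) : ℤ) q : ℝ) := by
  classical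
  have h1 : ∀ q ∈ OS Q, ∏ p ∈ S, (w p * (jacobiSym p q : ℝ) + (if p ∣ q then 1 else 0)) = ∑ T ∈ S.powerset, (∏ p ∈ T, w p) *
      (if (∏ p ∈ S \ T, p) ∣ q then (jacobiSym ((∏ p ∈ T, p : ℕ) : ℤ) q : ℝ) else 0) := by
    intro q hq
    rw [prod_add]
    apply sum_congr rfl
    intro T hT
    rw [prod_mul_distrib, dvd_prod (T := S \ T) (fun p hp => hS p (mem_sdiff.1 hp).1), jacobi_prod]
    split_ifs <;> ring
  rw [sum_congr rfl h1, sum_comm]
  apply sum_congr rfl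
  intro T _
  rw [sum_filter, mul_sum]

/-- J1 with weights -/
theorem j1w (h1a : StmtJ1a) (h1b : StmtJ1b) : ∃ C : ℝ, 0 < C ∧ ∀ (w : ℕ → ℝ), (∀ p, |w p| ≤ 1) → ∀ (Q : ℕ) (S : Finset ℕ),
    (∀ p ∈ S, p.Prime) → |∑ q ∈ OS Q, ∏ p ∈ S, (w p * (jacobiSym p q : ℝ) + (if p ∣ q then 1 else 0)) - (OS Q).card * ∏ p ∈ S, bp p| ≤
      C * (∏ p ∈ S, (p : ℝ)) ^ 2 * Real.sqrt Q := by
  classical
  obtain ⟨C1, hC1, ha⟩ := h1a
  obtain ⟨C2, hC2, hb⟩ := h1b
  refine ⟨C1 + C2, by positivity, fun w hw Q S hS => ?_⟩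
  have hsq : 0 ≤ Real.sqrt (Q : ℝ) := Real.sqrt_nonneg _
  have hone : ∀ T : Finset ℕ, (∀ p ∈ T, p.Prime) → (1 : ℝ) ≤ ∏ p ∈ T, (p : ℝ) := by
    intro T hT
    have h1 : 1 ≤ ∏ p ∈ T, p := prod_pos fun r hr => (hT r hr).pos
    rw [← Nat.cast_prod, ← Nat.cast_one]
    exact Nat.cast_le.2 h1
  have hprod1 : (1 : ℝ) ≤ ∏ p ∈ S, (p : ℝ) := hone S hS
  set W : ℝ := ∏ p ∈ S, (p : ℝ) with hW
  rw [expand_w hS]
  rw [← add_sum_erase _ _ (empty_mem_powerset S)]
  simp only [one_mul, sdiff_empty, prod_empty, Nat.cast_one,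
    jacobiSym.one_left, Int.cast_one, sum_const, nsmul_eq_mul, mul_one]
  have hodd : ∀ q ∈ OS Q, ¬ 2 ∣ q := by
    intro q hq h2
    have := (mem_OS.1 hq).2.1
    rw [← Nat.not_even_iff_odd, even_iff_two_dvd] at this
    exact this h2
  -- the main term
  have hmain : |(((OS Q).filter (fun q => (∏ p ∈ S, p) ∣ q)).card : ℝ) -
      (OS Q).card * ∏ p ∈ S, bp p| ≤ C2 * Real.sqrt Q := by
    by_cases h2 : 2 ∈ S
    · have e1 : (OS Q).filter (fun q => (∏ p ∈ S, p) ∣ q) = ∅ := by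
        apply filter_eq_empty_iff.2
        intro q hq hd
        exact hodd q hq ((dvd_prod_of_mem _ h2).trans hd)
      have e2 : ∏ p ∈ S, bp p = 0 := prod_eq_zero h2 (by simp [bp])
      rw [e1, e2]
      simp
      positivity
    · exact hb Q S fun p hp => ⟨hS p hp, fun h => h2 (h ▸ hp)⟩
  -- the other terms
  have hrest : ∀ T ∈ S.powerset.erase ∅, |(∏ p ∈ T, w p) *
      ∑ q ∈ (OS Q).filter (fun q => (∏ p ∈ S \ T, p) ∣ q),
        (jacobiSym ((∏ p ∈ T, p : ℕ) : ℤ) q : ℝ)| ≤ C1 * W * Real.sqrt Q := by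
    intro T hT
    obtain ⟨hT0, hTS⟩ := mem_erase.1 hT
    have hTS := mem_powerset.1 hTS
    rw [abs_mul, abs_prod]
    have hw1 : ∏ p ∈ T, |w p| ≤ 1 := prod_le_one (fun _ _ => abs_nonneg _) fun p _ => hw p
    have hw0 : 0 ≤ ∏ p ∈ T, |w p| := prod_nonneg fun _ _ => abs_nonneg _
    by_cases h2 : 2 ∈ S \ T
    · have e1 : (OS Q).filter (fun q => (∏ p ∈ S \ T, p) ∣ q) = ∅ := by
        apply filter_eq_empty_iff.2
        intro q hq hd
        exact hodd q hq ((dvd_prod_of_mem _ h2).trans hd)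
      rw [e1]
      simp only [sum_empty, abs_zero, mul_zero]
      positivity
    · have hsf : Squarefree (∏ p ∈ T, p) := by
        apply Finset.squarefree_prod_of_pairwise_isCoprime
        · intro p hp r hr hpr
          exact Nat.coprime_iff_isRelPrime.1
            ((Nat.coprime_primes (hS p (hTS hp)) (hS r (hTS hr))).2 hpr)
        · intro p hp
          exact (hS p (hTS hp)).prime.squarefree
      have hgt : 1 < ∏ p ∈ T, p := by
        obtain ⟨p, hp⟩ := nonempty_iff_ne_empty.2 hT0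
        have h3 : p ∣ ∏ p ∈ T, p := dvd_prod_of_mem _ hp
        have h4 : 0 < ∏ p ∈ T, p := prod_pos fun r hr => (hS r (hTS hr)).pos
        exact lt_of_lt_of_le (hS p (hTS hp)).one_lt (Nat.le_of_dvd h4 h3)
      have hoddb : Odd (∏ p ∈ S \ T, p) := by
        apply Finset.prod_induction _ Odd (fun a b ha hb => ha.mul hb) odd_one
        intro p hp
        rcases (hS p (mem_sdiff.1 hp).1).eq_two_or_odd' with h | h
        · exact absurd (h ▸ hp) h2
        · exact h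
      refine (mul_le_mul_of_nonneg_right hw1 (abs_nonneg _)).trans ?_
      rw [one_mul]
      refine (ha Q (∏ p ∈ T, p) (∏ p ∈ S \ T, p) hsf hgt hoddb).trans ?_
      apply mul_le_mul_of_nonneg_right _ hsq
      apply mul_le_mul_of_nonneg_left _ hC1.le
      push_cast
      rw [hW]
      rw [← prod_sdiff hTS]
      exact le_mul_of_one_le_left (by positivity)
        (hone (S \ T) fun p hp => hS p (mem_sdiff.1 hp).1)
  have hcard : ((S.powerset.erase ∅).card : ℝ) ≤ W := by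
    have h3 : ((S.powerset.erase ∅).card : ℝ) ≤ (2 : ℝ) ^ S.card := by
      have := card_le_card (erase_subset ∅ S.powerset)
      rw [card_powerset] at this
      exact_mod_cast this
    refine h3.trans ?_
    rw [hW, ← prod_const]
    apply prod_le_prod (fun _ _ => by norm_num)
    intro p hp
    exact_mod_cast (hS p hp).two_le
  have hW0 : 0 ≤ W := by linarith
  have hsum : |∑ T ∈ S.powerset.erase ∅, (∏ p ∈ T, w p) *
      ∑ q ∈ (OS Q).filter (fun q => (∏ p ∈ S \ T, p) ∣ q),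
        (jacobiSym ((∏ p ∈ T, p : ℕ) : ℤ) q : ℝ)| ≤ W * (C1 * W * Real.sqrt Q) := by
    refine (abs_sum_le_sum_abs _ _).trans ((sum_le_sum hrest).trans ?_)
    rw [sum_const, nsmul_eq_mul]
    exact mul_le_mul_of_nonneg_right hcard (by positivity)
  set A1 : ℝ := (((OS Q).filter (fun q => (∏ p ∈ S, p) ∣ q)).card : ℝ) with hA1
  set A2 : ℝ := ∑ T ∈ S.powerset.erase ∅, (∏ p ∈ T, w p) *
      ∑ q ∈ (OS Q).filter (fun q => (∏ p ∈ S \ T, p) ∣ q),
        (jacobiSym ((∏ p ∈ T, p : ℕ) : ℤ) q : ℝ) with hA2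
  have htri := abs_add_le (A1 - (OS Q).card * ∏ p ∈ S, bp p) A2
  have e : A1 + A2 - (OS Q).card * ∏ p ∈ S, bp p = (A1 - (OS Q).card * ∏ p ∈ S, bp p) + A2 := by ring
  rw [e]
  refine htri.trans ((add_le_add hmain hsum).trans ?_)
  have h5 : C2 * Real.sqrt Q ≤ C2 * W ^ 2 * Real.sqrt Q := by
    apply mul_le_mul_of_nonneg_right _ hsq
    exact le_mul_of_one_le_right hC2.le (one_le_pow₀ hprod1)
  calc C2 * Real.sqrt Q + W * (C1 * W * Real.sqrt Q) ≤
        C2 * W ^ 2 * Real.sqrt Q + W * (C1 * W * Real.sqrt Q) := by linarith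
    _ = _ := by ring

theorem zqp_eq {ψ : ℕ → ℤ} {q p : ℕ} (hq : q ≠ 0) (hp : p.Prime) (h0 : ψ p ≠ 0) :
    zqp ψ q p = -(ψ p : ℝ) * (jacobiSym p q : ℝ) + (if p ∣ q then 1 else 0) := by
  unfold zqp
  by_cases h : p ∣ q
  · have : jacobiSym p q = 0 := by
      have : NeZero q := ⟨hq⟩
      rw [jacobiSym.eq_zero_iff_not_coprime]
      intro h1
      have h2 : p ∣ Int.gcd (p : ℤ) q := by
        rw [Int.gcd_natCast_natCast]
        exact Nat.dvd_gcd dvd_rfl h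
      rw [h1] at h2
      exact hp.one_lt.ne' (Nat.dvd_one.1 h2)
    rw [if_pos (Or.inl h), if_pos h, this]; simp
  · rw [if_neg (not_or.2 ⟨h, h0⟩), if_neg h]
    ring

/-- **block J1psi** -/
theorem j1psi (h1a : StmtJ1a) (h1b : StmtJ1b) : ∃ C : ℝ, 0 < C ∧ ∀ (ψ : ℕ → ℤ), (∀ n, |ψ n| ≤ 1) → (∀ n, Odd n → ψ n ≠ 0) →
    ∀ (Q : ℕ) (S : Finset ℕ), (∀ p ∈ S, p.Prime) →
    |∑ q ∈ OS Q, ∏ p ∈ S, zqp ψ q p - (OS Q).card * ∏ p ∈ S, bps ψ p| ≤ C * (∏ p ∈ S, (p : ℝ)) ^ 2 * Real.sqrt Q := by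
  classical
  obtain ⟨C, hC, h⟩ := j1w h1a h1b
  refine ⟨C, hC, fun ψ hψ hodd Q S hS => ?_⟩
  set S' : Finset ℕ := S.filter fun p => ψ p ≠ 0 with hS'
  have hS'p : ∀ p ∈ S', p.Prime := fun p hp => hS p (mem_filter.1 hp).1
  have h2 : ∀ p ∈ S, ψ p = 0 → p = 2 := by
    intro p hp h0
    rcases (hS p hp).eq_two_or_odd' with h | h
    · exact h
    · exact absurd h0 (hodd p h)
  have e1 : ∀ q ∈ OS Q, ∏ p ∈ S, zqp ψ q p = ∏ p ∈ S', (-(ψ p : ℝ) * (jacobiSym p q : ℝ) + (if p ∣ q then 1 else 0)) := by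
    intro q hq
    have hq0 : q ≠ 0 := by
      have := (mem_OS.1 hq).1.1
      omega
    rw [hS', prod_filter]
    refine prod_congr rfl fun p hp => ?_
    split_ifs with h0
    · have h3 := zqp_eq (q := q) hq0 (hS p hp) h0
      rename_i h4
      rw [if_pos h4] at h3
      exact h3
    · have h3 := zqp_eq (q := q) hq0 (hS p hp) h0
      rename_i h4
      rw [if_neg h4] at h3
      exact h3
    · unfold zqp
      push Not at h0
      rw [if_pos (Or.inr h0)]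
  have e2 : ∏ p ∈ S, bps ψ p = ∏ p ∈ S', bp p := by
    rw [hS', prod_filter]
    refine prod_congr rfl fun p hp => ?_
    by_cases h0 : ψ p = 0
    · rw [if_neg (not_not.2 h0)]
      have h3 := h2 p hp h0
      subst h3
      unfold bps
      rw [if_pos rfl, if_pos h0]
    · rw [if_pos h0]
      unfold bps bp
      by_cases h3 : p = 2
      · subst h3
        rw [if_pos rfl, if_pos rfl, if_neg h0]
      · rw [if_neg h3, if_neg h3]
  rw [sum_congr rfl e1, e2]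
  have hw : ∀ p, |(-(ψ p : ℝ))| ≤ 1 := by
    intro p
    rw [abs_neg]
    exact_mod_cast hψ p
  refine (h (fun p => -(ψ p : ℝ)) hw Q S' hS'p).trans ?_
  have h3 : ∏ p ∈ S', (p : ℝ) ≤ ∏ p ∈ S, (p : ℝ) := by
    rw [hS', prod_filter]
    refine prod_le_prod (fun p hp => ?_) fun p hp => ?_
    · split_ifs <;> positivity
    · split_ifs
      · exact le_rfl
      · exact_mod_cast (hS p hp).one_le
  have h4 : 0 ≤ ∏ p ∈ S', (p : ℝ) := prod_nonneg fun _ _ => Nat.cast_nonneg _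
  gcongr

end Pool.Agent.Helper5.Psi
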