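import Pool.Agent.Helper5.Psi.PackP
import Pool.Agent.Helper79.Q3.J3

/-!
# Project A1 (MP_a499ba_nt), extension to all primitive real characters: block J3psi (after helper79)

The functions are multiplicative; on the powers of a prime `p` only one term of the convolution remains.
-/

set_option autoImplicit false

namespace Pool.Agent.Helper5.Psi

open Finset ArithmeticFunction Pool.Agent.Helper11.Q3 Pool.Agent.Helper79.Q3

/-- completely multiplicative -/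
structure PsiM (ψ : ℕ → ℤ) : Prop where
  one : ψ 1 = 1
  mul : ∀ m n, ψ (m * n) = ψ m * ψ n

theorem PsiM.pow {ψ : ℕ → ℤ} (h : PsiM ψ) (p e : ℕ) : ψ (p ^ e) = ψ p ^ e := by
  induction e with
  | zero => rw [pow_zero, pow_zero, h.one]
  | succ e ih => rw [pow_succ, pow_succ, h.mul, ih]

/-- `fz (zqp ψ q)` as an arithmetic function -/
noncomputable def fAp (ψ : ℕ → ℤ) (q : ℕ) : ArithmeticFunction ℝ := ⟨fz (zqp ψ q), by simp [fz]⟩

/-- `gz (zqp ψ q)` as an arithmetic function -/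
noncomputable def gAp (ψ : ℕ → ℤ) (q : ℕ) : ArithmeticFunction ℝ := ⟨gz (zqp ψ q), by simp [gz]⟩

/-- composed of the primes where the character vanishes -/
def Wp (ψ : ℕ → ℤ) (q n : ℕ) : Prop := ∀ p ∈ n.primeFactors, p ∣ q ∨ ψ p = 0

open Classical in
/-- The numbers composed of the primes where the character vanishes. -/
noncomputable def KAp (ψ : ℕ → ℤ) (q : ℕ) : ArithmeticFunction ℝ :=
  ⟨fun n => if n ≠ 0 ∧ Wp ψ q n then 1 else 0, by simp⟩

open Classical in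
/-- The squarefree numbers composed of the primes where the character vanishes. -/
noncomputable def KSp (ψ : ℕ → ℤ) (q : ℕ) : ArithmeticFunction ℝ :=
  ⟨fun n => if Squarefree n ∧ Wp ψ q n then 1 else 0, by simp⟩

/-- the character -/
noncomputable def ch (ψ : ℕ → ℤ) (q n : ℕ) : ℝ := ((ψ n * jacobiSym n q : ℤ) : ℝ)

theorem ch_mul {ψ : ℕ → ℤ} (h : PsiM ψ) (q m n : ℕ) : ch ψ q (m * n) = ch ψ q m * ch ψ q n := by
  unfold ch
  rw [h.mul]
  push_cast
  rw [jacobiSym.mul_left]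
  push_cast
  ring

theorem ch_one {ψ : ℕ → ℤ} (h : PsiM ψ) (q : ℕ) : ch ψ q 1 = 1 := by
  unfold ch
  rw [h.one]
  simp

theorem ch_zero {ψ : ℕ → ℤ} {q p : ℕ} (hq : 0 < q) (hp : p.Prime) (h : p ∣ q ∨ ψ p = 0) : ch ψ q p = 0 := by
  unfold ch
  rcases h with h | h
  · rw [jac_zero hq hp h, mul_zero, Int.cast_zero]
  · rw [h, zero_mul, Int.cast_zero]

theorem ch_pow {ψ : ℕ → ℤ} (h : PsiM ψ) (q p e : ℕ) : ch ψ q (p ^ e) = ch ψ q p ^ e := by
  induction e with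
  | zero => rw [pow_zero, pow_zero, ch_one h]
  | succ e ih => rw [pow_succ, pow_succ, ch_mul h, ih]

/-- `μ` times the character -/
noncomputable def MAp (ψ : ℕ → ℤ) (q : ℕ) : ArithmeticFunction ℝ := ⟨fun n => (moebius n : ℝ) * ch ψ q n, by simp⟩

/-- The Liouville function times the character -/
noncomputable def LAp (ψ : ℕ → ℤ) (q : ℕ) : ArithmeticFunction ℝ :=
  ⟨fun n => if n = 0 then 0 else (-1 : ℝ) ^ cardFactors n * ch ψ q n, by simp⟩

theorem fAp_mul (ψ : ℕ → ℤ) (q : ℕ) : (fAp ψ q).IsMultiplicative := by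
  refine ⟨by simp [fAp, fz], ?_⟩
  intro m n hmn
  change fz (zqp ψ q) (m * n) = fz (zqp ψ q) m * fz (zqp ψ q) n
  unfold fz
  by_cases hm : Squarefree m
  · by_cases hn : Squarefree n
    · rw [if_pos hm, if_pos hn, if_pos ((Nat.squarefree_mul hmn).mpr ⟨hm, hn⟩), hmn.primeFactors_mul,
        Finset.prod_union hmn.disjoint_primeFactors]
    · rw [if_neg hn, mul_zero, if_neg fun h => hn ((Nat.squarefree_mul hmn).mp h).2]
  · rw [if_neg hm, zero_mul, if_neg fun h => hm ((Nat.squarefree_mul hmn).mp h).1]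

theorem gAp_mul (ψ : ℕ → ℤ) (q : ℕ) : (gAp ψ q).IsMultiplicative := by
  rw [IsMultiplicative.iff_ne_zero]
  refine ⟨by simp [gAp, gz], ?_⟩
  intro m n hm hn _
  change gz (zqp ψ q) (m * n) = gz (zqp ψ q) m * gz (zqp ψ q) n
  unfold gz
  rw [if_neg hm, if_neg hn, if_neg (mul_ne_zero hm hn)]
  change (m * n).factorization.prod (fun p e => zqp ψ q p ^ e) = m.factorization.prod (fun p e => zqp ψ q p ^ e) *
    n.factorization.prod (fun p e => zqp ψ q p ^ e)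
  rw [Nat.factorization_mul hm hn, Finsupp.prod_add_index' (fun _ => pow_zero _) fun _ _ _ => pow_add _ _ _]

open Classical in
theorem KAp_mul (ψ : ℕ → ℤ) (q : ℕ) : (KAp ψ q).IsMultiplicative := by
  rw [IsMultiplicative.iff_ne_zero]
  refine ⟨by simp [KAp, Wp], ?_⟩
  intro m n hm hn _
  refine ite_and_mul ?_
  unfold Wp
  rw [Nat.primeFactors_mul hm hn]
  constructor
  · intro h
    exact ⟨⟨hm, fun p hp => h.2 p (Finset.mem_union_left _ hp)⟩, hn, fun p hp => h.2 p (Finset.mem_union_right _ hp)⟩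
  · intro h
    refine ⟨mul_ne_zero hm hn, fun p hp => ?_⟩
    rcases Finset.mem_union.mp hp with h1 | h1
    · exact h.1.2 p h1
    · exact h.2.2 p h1

open Classical in
theorem KSp_mul (ψ : ℕ → ℤ) (q : ℕ) : (KSp ψ q).IsMultiplicative := by
  rw [IsMultiplicative.iff_ne_zero]
  refine ⟨by simp [KSp, Wp], ?_⟩
  intro m n hm hn hmn
  refine ite_and_mul ?_
  unfold Wp
  rw [Nat.primeFactors_mul hm hn, Nat.squarefree_mul hmn]
  constructor
  · intro h
    exact ⟨⟨h.1.1, fun p hp => h.2 p (Finset.mem_union_left _ hp)⟩, h.1.2,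
      fun p hp => h.2 p (Finset.mem_union_right _ hp)⟩
  · intro h
    refine ⟨⟨h.1.1, h.2.1⟩, fun p hp => ?_⟩
    rcases Finset.mem_union.mp hp with h1 | h1
    · exact h.1.2 p h1
    · exact h.2.2 p h1

theorem MAp_mul {ψ : ℕ → ℤ} (hψ : PsiM ψ) (q : ℕ) : (MAp ψ q).IsMultiplicative := by
  refine ⟨by simp [MAp, ch_one hψ], ?_⟩
  intro m n hmn
  change (moebius (m * n) : ℝ) * ch ψ q (m * n) = ((moebius m : ℝ) * ch ψ q m) * ((moebius n : ℝ) * ch ψ q n)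
  rw [isMultiplicative_moebius.map_mul_of_coprime hmn, ch_mul hψ]
  push_cast
  ring

theorem LAp_mul {ψ : ℕ → ℤ} (hψ : PsiM ψ) (q : ℕ) : (LAp ψ q).IsMultiplicative := by
  rw [IsMultiplicative.iff_ne_zero]
  refine ⟨by simp [LAp, ch_one hψ], ?_⟩
  intro m n hm hn _
  change (if m * n = 0 then 0 else (-1 : ℝ) ^ cardFactors (m * n) * ch ψ q (m * n)) =
    (if m = 0 then 0 else (-1 : ℝ) ^ cardFactors m * ch ψ q m) *
      (if n = 0 then 0 else (-1 : ℝ) ^ cardFactors n * ch ψ q n)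
  rw [if_neg hm, if_neg hn, if_neg (mul_ne_zero hm hn), cardFactors_mul hm hn, ch_mul hψ, pow_add]
  ring

theorem fAp_pow {ψ : ℕ → ℤ} {q p : ℕ} (hp : p.Prime) (e : ℕ) :
    fAp ψ q (p ^ e) = if e = 0 then 1 else if e = 1 then zqp ψ q p else 0 := by
  change fz (zqp ψ q) (p ^ e) = _
  unfold fz
  rcases Nat.eq_zero_or_pos e with he | he
  · rw [he, pow_zero, if_pos rfl, if_pos squarefree_one, Nat.primeFactors_one, Finset.prod_empty]
  · rw [if_neg he.ne']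
    by_cases h1 : e = 1
    · rw [if_pos h1, h1, pow_one, if_pos hp.squarefree, hp.primeFactors, Finset.prod_singleton]
    · rw [if_neg h1, if_neg]
      intro h2
      rw [Nat.squarefree_pow_iff hp.one_lt.ne' he.ne'] at h2
      exact h1 h2.2

theorem gAp_pow {ψ : ℕ → ℤ} {q p : ℕ} (hp : p.Prime) (e : ℕ) : gAp ψ q (p ^ e) = zqp ψ q p ^ e := by
  change gz (zqp ψ q) (p ^ e) = _
  unfold gz
  rw [if_neg (pow_ne_zero e hp.ne_zero)]
  change (p ^ e).factorization.prod (fun p e => zqp ψ q p ^ e) = _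
  rw [hp.factorization_pow]
  exact Finsupp.prod_single_index (h := fun p e => zqp ψ q p ^ e) (pow_zero _)

theorem zqp_pos {ψ : ℕ → ℤ} {q p : ℕ} (h : p ∣ q ∨ ψ p = 0) : zqp ψ q p = 1 := by
  unfold zqp
  rw [if_pos h]

theorem zqp_neg {ψ : ℕ → ℤ} {q p : ℕ} (h : ¬ (p ∣ q ∨ ψ p = 0)) : zqp ψ q p = -ch ψ q p := by
  unfold zqp ch
  rw [if_neg h]
  push_cast
  ring

theorem KSp_pos {ψ : ℕ → ℤ} {q n : ℕ} (h : Squarefree n ∧ Wp ψ q n) : KSp ψ q n = 1 := if_pos h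

theorem KSp_neg {ψ : ℕ → ℤ} {q n : ℕ} (h : ¬ (Squarefree n ∧ Wp ψ q n)) : KSp ψ q n = 0 := if_neg h

theorem KAp_pos {ψ : ℕ → ℤ} {q n : ℕ} (h : n ≠ 0 ∧ Wp ψ q n) : KAp ψ q n = 1 := if_pos h

theorem KAp_neg {ψ : ℕ → ℤ} {q n : ℕ} (h : ¬ (n ≠ 0 ∧ Wp ψ q n)) : KAp ψ q n = 0 := if_neg h

theorem fAp_eq {ψ : ℕ → ℤ} (hψ : PsiM ψ) {q : ℕ} (hq : 0 < q) : fAp ψ q = KSp ψ q * MAp ψ q := by
  classical
  rw [(fAp_mul ψ q).eq_iff_eq_on_prime_powers _ _ ((KSp_mul ψ q).mul (MAp_mul hψ q))]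
  intro p e hp
  rw [fAp_pow hp]
  by_cases h : p ∣ q ∨ ψ p = 0
  · rw [conv_last _ _ hp (MAp_mul hψ q).1 fun j hj => by
      change (moebius (p ^ j) : ℝ) * ch ψ q (p ^ j) = 0
      rw [ch_pow hψ, ch_zero hq hp h, zero_pow hj.ne', mul_zero]]
    rcases Nat.eq_zero_or_pos e with he | he
    · rw [if_pos he, he, pow_zero, KSp_pos ⟨squarefree_one, by simp [Wp]⟩]
    · rw [if_neg he.ne']
      by_cases h1 : e = 1
      · rw [if_pos h1, h1, pow_one, KSp_pos ⟨hp.squarefree, by simpa [Wp, hp.primeFactors] using h⟩, zqp_pos h]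
      · rw [if_neg h1, KSp_neg]
        intro h2
        have h3 := h2.1
        rw [Nat.squarefree_pow_iff hp.one_lt.ne' he.ne'] at h3
        exact h1 h3.2
  · rw [conv_first _ _ hp (KSp_mul ψ q).1 fun j hj => by
      refine KSp_neg fun h1 => h (h1.2 p ?_)
      rw [Nat.primeFactors_prime_pow hj.ne' hp]
      exact Finset.mem_singleton_self p]
    change _ = (moebius (p ^ e) : ℝ) * ch ψ q (p ^ e)
    rcases Nat.eq_zero_or_pos e with he | he
    · rw [if_pos he, he, pow_zero, ch_one hψ]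
      simp
    · rw [if_neg he.ne', moebius_apply_prime_pow hp he.ne']
      by_cases h1 : e = 1
      · rw [if_pos h1, if_pos h1, h1, pow_one, zqp_neg h]
        push_cast
        ring
      · rw [if_neg h1, if_neg h1]
        simp

theorem gAp_eq {ψ : ℕ → ℤ} (hψ : PsiM ψ) {q : ℕ} (hq : 0 < q) : gAp ψ q = KAp ψ q * LAp ψ q := by
  classical
  rw [(gAp_mul ψ q).eq_iff_eq_on_prime_powers _ _ ((KAp_mul ψ q).mul (LAp_mul hψ q))]
  intro p e hp
  rw [gAp_pow hp]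
  by_cases h : p ∣ q ∨ ψ p = 0
  · rw [conv_last _ _ hp (LAp_mul hψ q).1 fun j hj => by
      change (if p ^ j = 0 then 0 else (-1 : ℝ) ^ cardFactors (p ^ j) * ch ψ q (p ^ j)) = 0
      rw [if_neg (pow_ne_zero j hp.ne_zero), ch_pow hψ, ch_zero hq hp h, zero_pow hj.ne', mul_zero]]
    rw [zqp_pos h, one_pow, KAp_pos]
    refine ⟨pow_ne_zero e hp.ne_zero, fun r hr => ?_⟩
    have h1 := Nat.mem_primeFactors.mp hr
    rw [(Nat.prime_dvd_prime_iff_eq h1.1 hp).mp (h1.1.dvd_of_dvd_pow h1.2.1)]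
    exact h
  · rw [conv_first _ _ hp (KAp_mul ψ q).1 fun j hj => by
      refine KAp_neg fun h1 => h (h1.2 p ?_)
      rw [Nat.primeFactors_prime_pow hj.ne' hp]
      exact Finset.mem_singleton_self p]
    change _ = if p ^ e = 0 then 0 else (-1 : ℝ) ^ cardFactors (p ^ e) * ch ψ q (p ^ e)
    rw [if_neg (pow_ne_zero e hp.ne_zero), cardFactors_apply_prime_pow hp, zqp_neg h, ch_pow hψ, ← mul_pow]
    ring_nf

open Classical in
/-- **J3a for `ψ`** -/
theorem j3aP {ψ : ℕ → ℤ} (hψ : PsiM ψ) (q N : ℕ) (hq : 0 < q) : ∑ n ∈ Icc 1 N, fz (zqp ψ q) n =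
    ∑ k ∈ (Icc 1 N).filter (fun k : ℕ => Squarefree k ∧ Wp ψ q k),
      ∑ n ∈ Icc 1 (N / k), (moebius n : ℝ) * ((ψ n * jacobiSym n q : ℤ) : ℝ) := by
  simp only [Icc_eq]
  have h1 : ∀ n, fz (zqp ψ q) n = (KSp ψ q * MAp ψ q) n := fun n => by
    rw [← fAp_eq hψ hq]
    rfl
  rw [Finset.sum_congr rfl fun n _ => h1 n, sum_Ioc_mul_eq_sum_sum, Finset.sum_filter]
  refine Finset.sum_congr rfl fun k _ => ?_
  change (if Squarefree k ∧ Wp ψ q k then (1 : ℝ) else 0) * _ = _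
  by_cases h : Squarefree k ∧ Wp ψ q k
  · rw [if_pos h, if_pos h, one_mul]
    rfl
  · rw [if_neg h, if_neg h, zero_mul]

open Classical in
/-- **J3b for `ψ`** -/
theorem j3bP {ψ : ℕ → ℤ} (hψ : PsiM ψ) (q N : ℕ) (hq : 0 < q) : ∑ n ∈ Icc 1 N, gz (zqp ψ q) n =
    ∑ k ∈ (Icc 1 N).filter (fun k : ℕ => Wp ψ q k),
      ∑ n ∈ Icc 1 (N / k), (-1 : ℝ) ^ cardFactors n * ((ψ n * jacobiSym n q : ℤ) : ℝ) := by
  simp only [Icc_eq]
  have h1 : ∀ n, gz (zqp ψ q) n = (KAp ψ q * LAp ψ q) n := fun n => by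
    rw [← gAp_eq hψ hq]
    rfl
  rw [Finset.sum_congr rfl fun n _ => h1 n, sum_Ioc_mul_eq_sum_sum, Finset.sum_filter]
  refine Finset.sum_congr rfl fun k hk => ?_
  have hk0 : k ≠ 0 := (Finset.mem_Ioc.mp hk).1.ne'
  change (if k ≠ 0 ∧ Wp ψ q k then (1 : ℝ) else 0) * _ = _
  have h2 : ∑ m ∈ Ioc 0 (N / k), LAp ψ q m = ∑ n ∈ Ioc 0 (N / k), (-1 : ℝ) ^ cardFactors n * ((ψ n * jacobiSym n q : ℤ) : ℝ) := by
    refine Finset.sum_congr rfl fun m hm => ?_
    change (if m = 0 then 0 else (-1 : ℝ) ^ cardFactors m * ch ψ q m) = _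
    rw [if_neg (Finset.mem_Ioc.mp hm).1.ne']
    rfl
  rw [h2]
  by_cases h : Wp ψ q k
  · rw [if_pos ⟨hk0, h⟩, if_pos h, one_mul]
  · rw [if_neg fun h3 => h h3.2, if_neg h, zero_mul]

/-- the sums of `k^(-1/2)` over the filled numbers -/
def SmP (ψ : ℕ → ℤ) (C : ℝ) (q : ℕ) : Prop :=
  ∀ N : ℕ, ∑ k ∈ (Icc 1 N).filter (fun k : ℕ => ∀ p ∈ k.primeFactors, p ∣ q ∨ ψ p = 0), 1 / Real.sqrt k ≤ C

theorem smP_of {ψ : ℕ → ℤ} (hψ : PsiOK ψ) {C : ℝ} {q : ℕ} (h : Sm C q) : SmP ψ (4 * C) q := by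
  classical
  intro N
  have hC0 : 0 ≤ C := le_trans (Finset.sum_nonneg fun k _ => by positivity) (h 0)
  set I := (Icc 1 N).filter (fun k : ℕ => ∀ p ∈ k.primeFactors, p ∣ q ∨ ψ p = 0) with hI
  set J := (Icc 1 N).filter (fun k : ℕ => ∀ p ∈ k.primeFactors, p ∣ q) with hJ
  set φ : ℕ → ℕ × ℕ := fun k => (k.factorization 2, k / 2 ^ k.factorization 2) with hφ
  have hk : ∀ k ∈ I, 2 ^ (φ k).1 * (φ k).2 = k := fun k _ => Nat.ordProj_mul_ordCompl_eq_self k 2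
  have hinj : Set.InjOn φ I := by
    intro k hk1 l hl1 he
    rw [← hk k hk1, ← hk l hl1, he]
  have hval : ∀ k ∈ I, 1 / Real.sqrt k = (1 / Real.sqrt (2 : ℕ)) ^ (φ k).1 * (1 / Real.sqrt ((φ k).2 : ℕ)) := by
    intro k hk1
    have h1 : Real.sqrt (k : ℝ) = Real.sqrt (2 : ℕ) ^ (φ k).1 * Real.sqrt ((φ k).2 : ℕ) := by
      have h2 : (k : ℝ) = (2 : ℝ) ^ (φ k).1 * ((φ k).2 : ℕ) := by
        have := hk k hk1
        exact_mod_cast this.symm
      rw [h2, Real.sqrt_mul (by positivity)]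
      congr 1
      have h0 : 0 ≤ Real.sqrt ((2 : ℕ) : ℝ) ^ (φ k).1 := by positivity
      rw [← Real.sqrt_sq h0, ← pow_mul, mul_comm (φ k).1 2, pow_mul, Real.sq_sqrt (by positivity)]
      norm_num
    rw [h1, one_div_pow, one_div_mul_one_div]
  have hmaps : ∀ k ∈ I, φ k ∈ range (N + 1) ×ˢ J := by
    intro k hk1
    rw [hI, mem_filter, mem_Icc] at hk1
    have h0 : k ≠ 0 := by omega
    rw [mem_product, mem_range, hJ, mem_filter, mem_Icc]
    refine ⟨?_, ⟨Nat.ordCompl_pos 2 h0, (Nat.ordCompl_le k 2).trans hk1.1.2⟩, ?_⟩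
    · show k.factorization 2 < N + 1
      have := Nat.factorization_lt (p := 2) h0
      omega
    · intro p hp
      have hp1 : p.Prime := Nat.prime_of_mem_primeFactors hp
      have hp2 : p ∣ k / 2 ^ k.factorization 2 := Nat.dvd_of_mem_primeFactors hp
      have hpk : p ∣ k := hp2.trans (Nat.ordCompl_dvd k 2)
      rcases hk1.2 p (Nat.mem_primeFactors.2 ⟨hp1, hpk, h0⟩) with h2 | h2
      · exact h2
      · exfalso
        rcases hp1.eq_two_or_odd' with h3 | h3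
        · rw [h3] at hp2
          exact Nat.not_dvd_ordCompl Nat.prime_two h0 hp2
        · exact hψ.odd p h3 h2
  calc ∑ k ∈ I, 1 / Real.sqrt k = ∑ k ∈ I, (1 / Real.sqrt (2 : ℕ)) ^ (φ k).1 * (1 / Real.sqrt ((φ k).2 : ℕ)) := sum_congr rfl hval
    _ = ∑ y ∈ I.image φ, (1 / Real.sqrt (2 : ℕ)) ^ y.1 * (1 / Real.sqrt (y.2 : ℕ)) :=
        (sum_image (f := fun y : ℕ × ℕ => (1 / Real.sqrt (2 : ℕ)) ^ y.1 * (1 / Real.sqrt (y.2 : ℕ))) hinj).symm
    _ ≤ ∑ y ∈ range (N + 1) ×ˢ J, (1 / Real.sqrt (2 : ℕ)) ^ y.1 * (1 / Real.sqrt (y.2 : ℕ)) := by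
        refine sum_le_sum_of_subset_of_nonneg (fun y hy => ?_) fun y _ _ => by positivity
        obtain ⟨k, hk1, rfl⟩ := mem_image.1 hy
        exact hmaps k hk1
    _ = (∑ i ∈ range (N + 1), (1 / Real.sqrt (2 : ℕ)) ^ i) * ∑ k ∈ J, 1 / Real.sqrt k := by
        rw [sum_product, sum_mul_sum]
    _ ≤ 7 / 2 * C := mul_le_mul (Pool.Agent.DR.geo5 le_rfl _) (h N) (sum_nonneg fun _ _ => by positivity) (by norm_num)
    _ ≤ 4 * C := by linarith

open Pool.Agent.Q3psi in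
theorem psiM_ps (j : Fin 4) : PsiM (ps j) where
  one := by
    fin_cases j <;> simp [ps]
  mul := fun m n => by
    unfold ps
    fin_cases j
    · simp
    · simp only [Nat.cast_mul, map_mul]
    · simp only [Nat.cast_mul, map_mul]
    · simp only [Nat.cast_mul, map_mul]

end Pool.Agent.Helper5.Psi
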