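import Pool.Agent.Helper5.Psi.J1psi
import Pool.Agent.Helper11.DR.Res

/-!
# Project A1 (MP_a499ba_nt), extension to all primitive real characters: biased signs with a general bias
-/

set_option autoImplicit false

namespace Pool.Agent.Helper5.Psi

open Finset MeasureTheory Pool.Agent.Helper5.RM Pool.Agent.Helper96.AF Pool.Agent.Helper11.Q3 Pool.Agent.DR Pool.Agent.Helper11.DR
open Pool.Agent.Helper66.LW Pool.Agent.IT

/-- the biases: at most `1 / p` at the odd primes -/
structure Bias (b : ℕ → ℝ) : Prop where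
  nn : ∀ p, 0 ≤ b p
  le1 : ∀ p, b p ≤ 1
  inv : ∀ p : ℕ, p.Prime → p ≠ 2 → b p ≤ 1 / p

theorem Bias.two {b : ℕ → ℝ} (h : Bias b) {p : ℕ} (hp : p.Prime) : b p ≤ 2 / p := by
  have hp0 : (0 : ℝ) < p := by exact_mod_cast hp.pos
  by_cases h2 : p = 2
  · subst h2
    have := h.le1 2
    norm_num
    exact this
  · refine (h.inv p hp h2).trans ?_
    exact div_le_div_of_nonneg_right (by norm_num) hp0.le

theorem bias_bps (ψ : ℕ → ℤ) : Bias (bps ψ) where
  nn := fun p => by
    unfold bps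
    split_ifs
    · norm_num
    · norm_num
    · positivity
  le1 := fun p => by
    unfold bps
    split_ifs
    · norm_num
    · norm_num
    · rw [div_le_one (by positivity)]
      have : (0 : ℝ) ≤ p := Nat.cast_nonneg _
      linarith
  inv := fun p hp h2 => by
    have hp0 : (0 : ℝ) < p := by exact_mod_cast hp.pos
    unfold bps
    rw [if_neg h2]
    exact one_div_le_one_div_of_le hp0 (by linarith)

/-- the kernel of the correlations -/
noncomputable def kapP (b : ℕ → ℝ) (n : ℕ) : ℝ := ∏ p ∈ od n, b p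

theorem kapP_nonneg {b : ℕ → ℝ} (h : Bias b) (n : ℕ) : 0 ≤ kapP b n := Finset.prod_nonneg fun p _ => h.nn p

theorem kapP_le {b : ℕ → ℝ} (h : Bias b) {j a : ℕ} (hj : j ≠ 0) (ha : Squarefree a) : kapP b (j ^ 2 * a) ≤ 2 / a := by
  unfold kapP
  rw [od_sq_mul hj ha]
  have h0 : ∀ p ∈ a.primeFactors, b p ≤ (if p = 2 then 2 else 1) * (1 / (p : ℝ)) := by
    intro p hp
    have hpp := Nat.prime_of_mem_primeFactors hp
    split_ifs with h2
    · have := h.two hpp
      rwa [mul_one_div]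
    · rw [one_mul]
      exact h.inv p hpp h2
  have h1 : ∏ p ∈ a.primeFactors, b p ≤ ∏ p ∈ a.primeFactors, ((if p = 2 then 2 else 1) * (1 / (p : ℝ))) :=
    Finset.prod_le_prod (fun p _ => h.nn p) h0
  refine h1.trans ?_
  rw [Finset.prod_mul_distrib]
  have h2 : ∏ p ∈ a.primeFactors, (if p = 2 then (2 : ℝ) else 1) ≤ 2 := by
    rw [Finset.prod_ite_eq' a.primeFactors 2 fun _ => (2 : ℝ)]
    split_ifs <;> norm_num
  have h3 : ∏ p ∈ a.primeFactors, (1 / (p : ℝ)) = 1 / a := by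
    rw [Finset.prod_div_distrib, Finset.prod_const_one]
    congr 1
    rw [← Nat.cast_prod, Nat.prod_primeFactors_of_squarefree ha]
  rw [h3]
  calc _ ≤ 2 * (1 / (a : ℝ)) := mul_le_mul_of_nonneg_right h2 (by positivity)
    _ = 2 / a := by ring

/-- the weight of the sign pattern `T` -/
noncomputable def wbP (b : ℕ → ℝ) (S T : Finset ℕ) : ℝ := (∏ p ∈ S, (1 + sg T p * b p)) / 2 ^ S.card

/-- the biased law -/
noncomputable def PBp (b : ℕ → ℝ) (S : Finset ℕ) : Measure (Finset ℕ) := FM S.powerset (wbP b S)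

theorem wtP_nonneg {b : ℕ → ℝ} (h : Bias b) (S T : Finset ℕ) : 0 ≤ ∏ p ∈ S, (1 + sg T p * b p) := by
  refine prod_nonneg fun p _ => ?_
  have h1 := h.nn p
  have h2 := h.le1 p
  unfold sg
  split_ifs <;> linarith

theorem wbP_nonneg {b : ℕ → ℝ} (h : Bias b) (S T : Finset ℕ) : 0 ≤ wbP b S T := by
  unfold wbP
  exact div_nonneg (wtP_nonneg h S T) (by positivity)

/-- averages over the biased signs -/
noncomputable def avP (b : ℕ → ℝ) (S : Finset ℕ) (F : Finset ℕ → ℝ) : ℝ := av S fun T => F T * ∏ p ∈ S, (1 + sg T p * b p)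

theorem sum_wbP (b : ℕ → ℝ) (S : Finset ℕ) (F : Finset ℕ → ℝ) : ∑ T ∈ S.powerset, wbP b S T * F T = avP b S F := by
  unfold avP av wbP
  rw [Finset.sum_div]
  exact Finset.sum_congr rfl fun T _ => by ring

theorem sum_wbP_one (b : ℕ → ℝ) (S : Finset ℕ) : ∑ T ∈ S.powerset, wbP b S T = 1 := by
  have h := sum_wbP b S fun _ => 1
  unfold avP at h
  simp only [mul_one, one_mul] at h
  rw [h, av_prod S fun p x => 1 + x * b p]
  refine Finset.prod_eq_one fun p _ => ?_
  ring

theorem PBp_prob {b : ℕ → ℝ} (h : Bias b) (S : Finset ℕ) : IsProbabilityMeasure (PBp b S) :=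
  FM_prob _ _ (fun T _ => wbP_nonneg h S T) (sum_wbP_one b S)

theorem PBp_int {b : ℕ → ℝ} (h : Bias b) (S : Finset ℕ) (F : Finset ℕ → ℝ) : ∫ T, F T ∂(PBp b S) = avP b S F := by
  unfold PBp
  rw [FM_integral _ _ (fun T _ => wbP_nonneg h S T), ← sum_wbP]
  simp only [smul_eq_mul]

theorem cf_Bp {b : ℕ → ℝ} (h : Bias b) (S : Finset ℕ) (Z : ℕ) : CF (PBp b S) chB Z where
  prob := PBp_prob h S
  meas := fun _ => measurable_from_top
  one := fun T => by unfold chB; rw [gz_one]; simp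
  mul := fun T m n => by unfold chB; rw [gz_mul]; push_cast; ring
  norm := fun T n h1 _ => (gz_norm (sgn_sg T) h1).le

/-- the correlations of the biased signs -/
theorem corr_Bp {b : ℕ → ℝ} (hb : Bias b) {S : Finset ℕ} {m n : ℕ} (hm : 1 ≤ m) (hn : 1 ≤ n) (h : od (m * n) ⊆ S) :
    ∫ T, chB T m * (starRingEnd ℂ) (chB T n) ∂(PBp b S) = (kapP b (m * n) : ℂ) := by
  have e1 : ∀ T : Finset ℕ, chB T m * (starRingEnd ℂ) (chB T n) = ((∏ p ∈ od (m * n), sg T p : ℝ) : ℂ) := by
    intro T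
    unfold chB
    rw [Complex.conj_ofReal, ← Complex.ofReal_mul, ← gz_mul, gz_odd (sgn_sg T) (Nat.mul_ne_zero (by omega) (by omega))]
  simp_rw [e1]
  rw [integral_complex_ofReal, PBp_int hb]
  congr 1
  unfold avP
  have e2 : ∀ T : Finset ℕ, (∏ p ∈ od (m * n), sg T p) * ∏ p ∈ S, (1 + sg T p * b p) =
      ∏ p ∈ S, (fun (p : ℕ) (x : ℝ) => (if p ∈ od (m * n) then x else 1) * (1 + x * b p)) p (sg T p) := by
    intro T
    simp only
    rw [Finset.prod_mul_distrib, Finset.prod_ite_mem, Finset.inter_eq_right.2 h]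
  simp_rw [e2]
  rw [av_prod S fun (p : ℕ) (x : ℝ) => (if p ∈ od (m * n) then x else 1) * (1 + x * b p)]
  unfold kapP
  rw [← Finset.inter_eq_right.2 h, ← Finset.prod_ite_mem]
  refine Finset.prod_congr rfl fun p _ => ?_
  rw [Finset.inter_eq_right.2 h]
  split_ifs <;> ring

/-! ### comparison with fair signs -/

/-- the biased probability -/
noncomputable def pbP (b : ℕ → ℝ) (S : Finset ℕ) (P : Finset ℕ → Prop) : ℝ := av S fun T => (open Classical in if P T then (1 : ℝ) else 0) *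
  ∏ p ∈ S, (1 + sg T p * b p)

theorem av_sqP (b : ℕ → ℝ) (S : Finset ℕ) :
    av S (fun T => (∏ p ∈ S, (1 + sg T p * b p)) ^ 2) = ∏ p ∈ S, (1 + b p ^ 2) := by
  have e1 : ∀ T : Finset ℕ, (∏ p ∈ S, (1 + sg T p * b p)) ^ 2 = ∏ p ∈ S, (fun (p : ℕ) (x : ℝ) => (1 + x * b p) ^ 2) p (sg T p) := by
    intro T
    simp only
    rw [Finset.prod_pow]
  simp_rw [e1]
  rw [av_prod S fun (p : ℕ) (x : ℝ) => (1 + x * b p) ^ 2]
  refine Finset.prod_congr rfl fun p _ => ?_
  ring

theorem sum_sq_le {b : ℕ → ℝ} (h : Bias b) (N : ℕ) : ∑ p ∈ PP N, b p ^ 2 ≤ 8 := by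
  have h1 : ∀ p ∈ PP N, b p ^ 2 ≤ 8 * (1 / (p : ℝ) - 1 / ((p : ℝ) + 1)) := by
    intro p hp
    have hpp := (mem_PP.mp hp).1
    have hp0 : (0 : ℝ) < p := by exact_mod_cast hpp.pos
    have hp1 : (1 : ℝ) ≤ p := by exact_mod_cast hpp.one_le
    have h2 := h.two hpp
    have h3 : b p ^ 2 ≤ (2 / p) ^ 2 := pow_le_pow_left₀ (h.nn p) h2 2
    refine h3.trans ?_
    rw [div_sub_div _ _ hp0.ne' (by positivity), div_pow, mul_div_assoc', div_le_div_iff₀ (by positivity) (by positivity)]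
    nlinarith
  have h3 : ∀ n : ℕ, ∑ p ∈ Finset.Icc 1 n, (1 / (p : ℝ) - 1 / ((p : ℝ) + 1)) = 1 - 1 / ((n : ℝ) + 1) := by
    intro n
    induction n with
    | zero => simp
    | succ n ih =>
      rw [Finset.sum_Icc_succ_top (by omega), ih]
      push_cast
      ring
  calc ∑ p ∈ PP N, b p ^ 2 ≤ ∑ p ∈ PP N, 8 * (1 / (p : ℝ) - 1 / ((p : ℝ) + 1)) :=
        Finset.sum_le_sum h1
    _ ≤ ∑ p ∈ Finset.Icc 1 N, 8 * (1 / (p : ℝ) - 1 / ((p : ℝ) + 1)) := by
        apply Finset.sum_le_sum_of_subset_of_nonneg (Finset.filter_subset _ _)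
        intro p hp _
        have hp0 : (0 : ℝ) < p := by
          have := (Finset.mem_Icc.mp hp).1
          exact_mod_cast this
        refine mul_nonneg (by norm_num) ?_
        rw [sub_nonneg]
        exact one_div_le_one_div_of_le hp0 (by linarith)
    _ = 8 * (1 - 1 / ((N : ℝ) + 1)) := by rw [← Finset.mul_sum, h3 N]
    _ ≤ 8 := by
        have : (0 : ℝ) ≤ 1 / ((N : ℝ) + 1) := by positivity
        linarith

/-- contiguity with fair signs -/
theorem j2P {b : ℕ → ℝ} (h : Bias b) (N : ℕ) (P : Finset ℕ → Prop) : pbP b (PP N) P ≤ Real.sqrt (Real.exp 8) * Real.sqrt (pr (PP N) P) := by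
  set S := PP N with hS
  have hM : (0 : ℝ) < 2 ^ S.card := by positivity
  have h1 : ∏ p ∈ S, (1 + b p ^ 2) ≤ Real.exp 8 := by
    calc ∏ p ∈ S, (1 + b p ^ 2) ≤ ∏ p ∈ S, Real.exp (b p ^ 2) := by
          apply Finset.prod_le_prod
          · intro p _
            positivity
          · intro p _
            rw [add_comm]
            exact Real.add_one_le_exp _
      _ = Real.exp (∑ p ∈ S, b p ^ 2) := (Real.exp_sum _ _).symm
      _ ≤ Real.exp 8 := Real.exp_le_exp.mpr (sum_sq_le h N)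
  have h2 : (pbP b S P) ^ 2 ≤ pr S P * av S (fun T => (∏ p ∈ S, (1 + sg T p * b p)) ^ 2) := by
    unfold pbP pr av
    rw [div_pow, div_mul_div_comm, ← sq, div_le_div_iff_of_pos_right (by positivity)]
    refine (Finset.sum_mul_sq_le_sq_mul_sq _ _ _).trans (le_of_eq ?_)
    congr 1
    apply Finset.sum_congr rfl
    intro T _
    by_cases h : P T <;> simp [h]
  rw [av_sqP] at h2
  have h3 : (pbP b S P) ^ 2 ≤ pr S P * Real.exp 8 :=
    h2.trans (mul_le_mul_of_nonneg_left h1 (pr_nonneg S P))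
  rw [← Real.sqrt_mul (Real.exp_pos _).le, mul_comm]
  exact Real.le_sqrt_of_sq_le h3

/-- the law of the biased signs as an average -/
theorem PBp_pbP {b : ℕ → ℝ} (h : Bias b) (S : Finset ℕ) (E : Finset ℕ → Prop) : (PBp b S).real {T | E T} = pbP b S E := by
  classical
  have := PBp_prob h S
  have h1 : ∫ T, (Set.indicator {T | E T} (fun _ => (1 : ℝ))) T ∂(PBp b S) = (PBp b S).real {T | E T} := by
    rw [integral_indicator (by trivial : MeasurableSet {T : Finset ℕ | E T})]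
    simp
  rw [← h1, PBp_int h]
  unfold avP pbP
  refine av_congr fun T _ => ?_
  congr 1

theorem pbP_insert {b : ℕ → ℝ} {S : Finset ℕ} {q : ℕ} (hq : q ∉ S) {E : Finset ℕ → Prop} (hE : ∀ T, E (insert q T) ↔ E T) :
    pbP b (insert q S) E = pbP b S E := by
  classical
  unfold pbP
  rw [av_insert hq, ← mul_div_cancel_right₀ (av S fun T => (if E T then (1 : ℝ) else 0) * ∏ p ∈ S, (1 + sg T p * b p)) (two_ne_zero)]
  congr 1
  have e1 : av S (fun T => (if E T then (1 : ℝ) else 0) * ∏ p ∈ insert q S, (1 + sg T p * b p)) =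
      (1 + b q) * av S (fun T => (if E T then (1 : ℝ) else 0) * ∏ p ∈ S, (1 + sg T p * b p)) := by
    rw [← av_mul_left]
    refine av_congr fun T hT => ?_
    rw [Finset.prod_insert hq, sg_not_mem fun h => hq (hT h)]
    ring
  have e2 : av S (fun T => (if E (insert q T) then (1 : ℝ) else 0) * ∏ p ∈ insert q S, (1 + sg (insert q T) p * b p)) =
      (1 - b q) * av S (fun T => (if E T then (1 : ℝ) else 0) * ∏ p ∈ S, (1 + sg T p * b p)) := by
    rw [← av_mul_left]
    refine av_congr fun T _ => ?_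
    rw [Finset.prod_insert hq, sg_mem (Finset.mem_insert_self q T), if_congr (hE T) rfl rfl]
    have h1 : ∏ p ∈ S, (1 + sg (insert q T) p * b p) = ∏ p ∈ S, (1 + sg T p * b p) := by
      refine Finset.prod_congr rfl fun p hp => ?_
      rw [sg_insert_of_ne]
      rintro rfl
      exact hq hp
    rw [h1]
    ring
  rw [e1, e2]
  ring

/-- restriction to a smaller set of primes -/
theorem pbP_res {b : ℕ → ℝ} {U S : Finset ℕ} (hU : U ⊆ S) {E : Finset ℕ → Prop} (hE : ∀ T, E T ↔ E (T ∩ U)) : pbP b S E = pbP b U E := by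
  classical
  have key : ∀ W : Finset ℕ, Disjoint U W → pbP b (U ∪ W) E = pbP b U E := by
    intro W
    induction W using Finset.induction_on with
    | empty => intro _; rw [Finset.union_empty]
    | insert q W hq ih =>
      intro hd
      rw [Finset.disjoint_insert_right] at hd
      rw [Finset.union_insert, pbP_insert, ih hd.2]
      · rw [Finset.mem_union]
        push Not
        exact ⟨hd.1, hq⟩
      · intro T
        rw [hE (insert q T), hE T, Finset.insert_inter_of_notMem hd.1]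
  have h1 := key (S \ U) Finset.disjoint_sdiff
  rwa [Finset.union_sdiff_of_subset hU] at h1

/-- biased signs are controlled by fair signs -/
theorem PBp_fair : ∃ C : ℝ, 0 < C ∧ ∀ (b : ℕ → ℝ), Bias b → ∀ (M N : ℕ), M ≤ N → ∀ E : Finset ℕ → Prop, (∀ T, E T ↔ E (T ∩ PP M)) →
    (PBp b (PP N)).real {T | E T} ≤ C * Real.sqrt (pr (PP M) E) := by
  refine ⟨Real.sqrt (Real.exp 8), Real.sqrt_pos.2 (Real.exp_pos _), fun b hb M N hMN E hE => ?_⟩
  rw [PBp_pbP hb, pbP_res (Pool.Agent.Helper11.DR.PP_mono hMN) hE]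
  exact j2P hb M E

/-- the bound for the smoothed sums under the biased signs, from the bound under fair signs -/
theorem ev_fairP : ∃ C : ℝ, 0 < C ∧ ∀ (b : ℕ → ℝ), Bias b → ∀ (K : Ker) (a : ℕ → ℂ) (c : ℂ) (r N : ℕ) (L : ℝ), Y (r + 1) ≤ N →
    (PBp b (PP N)).real {T | ∀ i : ℕ, (i : ℝ) ≤ 1 / sr r → (c * SS K r (fun n => a n * chB T n) i).re ≤ L} ≤
      C * Real.sqrt (pr (PP (Y (r + 1))) fun T => ∀ i : ℕ, (i : ℝ) ≤ 1 / sr r → (c * SS K r (fun n => a n * chB T n) i).re ≤ L) := by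
  obtain ⟨C, hC, h⟩ := PBp_fair
  refine ⟨C, hC, fun b hb K a c r N L hN => h b hb (Y (r + 1)) N hN _ fun T => ?_⟩
  simp only [SS_res]

end Pool.Agent.Helper5.Psi
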