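import Pool.Agent.Helper5.Psi.MomP
import Pool.Agent.Helper95.TF.PsiD

/-!
# Project A1 (MP_a499ba_nt), extension to all primitive real characters: the two families, everything that the transfer needs
-/

set_option autoImplicit false

namespace Pool.Agent.Helper5.Psi

open Finset MeasureTheory Filter Topology Pool.Agent.Helper5.RM Pool.Agent.Helper96.AF Pool.Agent.Helper66.LW Pool.Agent.IT Pool.Agent.DR
open Pool.Agent.Helper11.Q3 Pool.Agent.Helper11.DR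

variable {a α : ℕ → ℂ}

/-- the functions `ψ` -/
structure PsiOK (ψ : ℕ → ℤ) : Prop where
  le : ∀ n, |ψ n| ≤ 1
  odd : ∀ n, Odd n → ψ n ≠ 0

theorem sgn_zqp {ψ : ℕ → ℤ} (h : PsiOK ψ) (q : ℕ) : Sgn (zqp ψ q) := by
  intro p hp
  unfold zqp
  split_ifs with h1
  · left; rfl
  · push Not at h1
    have hc : (p : ℤ).gcd q = 1 := by
      rw [Int.gcd_natCast_natCast]
      exact (Nat.Prime.coprime_iff_not_dvd hp).2 h1.1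
    have h2 : ψ p = 1 ∨ ψ p = -1 := by
      have h3 := abs_le.1 (h.le p)
      have h4 := h1.2
      omega
    rcases jacobiSym.eq_one_or_neg_one hc with h3 | h3 <;> rcases h2 with h4 | h4 <;> rw [h3, h4] <;> norm_num

/-- the family of the real characters `ψ (. / q)`, the zeros filled with `1`, and changed sign at the other primes -/
noncomputable def chQp (ψ : ℕ → ℤ) (q n : ℕ) : ℂ := (gz (zqp ψ q) n : ℂ)

theorem cf_Qp {ψ : ℕ → ℤ} (hψ : PsiOK ψ) {Q : ℕ} (h : 0 < (OS Q).card) (Z : ℕ) : CF (PQ Q) (chQp ψ) Z where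
  prob := PQ_prob h
  meas := fun _ => measurable_from_top
  one := fun q => by unfold chQp; rw [gz_one]; simp
  mul := fun q m n => by unfold chQp; rw [gz_mul]; push_cast; ring
  norm := fun q n h1 _ => (gz_norm (sgn_zqp hψ q) h1).le

/-- the correlations of the real characters -/
theorem corr_Qp {ψ : ℕ → ℤ} (hψ : PsiOK ψ) {C : ℝ} (hC : 0 ≤ C) {Q : ℕ} (hQ : 1 ≤ Q) (hc : (Q : ℝ) / 8 ≤ (OS Q).card)
    (h : ∀ (S : Finset ℕ), (∀ p ∈ S, p.Prime) →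
      |∑ q ∈ OS Q, ∏ p ∈ S, zqp ψ q p - (OS Q).card * ∏ p ∈ S, bps ψ p| ≤ C * (∏ p ∈ S, (p : ℝ)) ^ 2 * Real.sqrt Q)
    {Z m n : ℕ} (hm : 1 ≤ m) (hm2 : m ≤ Z) (hn : 1 ≤ n) (hn2 : n ≤ Z) :
    ‖(∫ q, chQp ψ q m * (starRingEnd ℂ) (chQp ψ q n) ∂(PQ Q)) - (kapP (bps ψ) (m * n) : ℂ)‖ ≤ 8 * C * (Z : ℝ) ^ 4 / Real.sqrt Q := by
  have hQ0 : (0 : ℝ) < Q := by exact_mod_cast hQ
  have hcard : (0 : ℝ) < (OS Q).card := by linarith [div_pos hQ0 (by norm_num : (0 : ℝ) < 8)]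
  have hmn : m * n ≠ 0 := Nat.mul_ne_zero (by omega) (by omega)
  have e1 : ∀ q : ℕ, chQp ψ q m * (starRingEnd ℂ) (chQp ψ q n) = ((∏ p ∈ od (m * n), zqp ψ q p : ℝ) : ℂ) := by
    intro q
    unfold chQp
    rw [Complex.conj_ofReal, ← Complex.ofReal_mul, ← gz_mul, gz_odd (sgn_zqp hψ q) hmn]
  simp_rw [e1]
  rw [integral_complex_ofReal, ← Complex.ofReal_sub, Complex.norm_real, Real.norm_eq_abs]
  unfold PQ
  rw [FM_integral _ _ (fun _ _ => by positivity)]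
  simp only [smul_eq_mul]
  rw [← Finset.mul_sum]
  have h1 := h (od (m * n)) fun p hp => od_prime hp
  have h2 : ∏ p ∈ od (m * n), (p : ℝ) ≤ (Z : ℝ) ^ 2 := by
    refine (prod_od_le hmn).trans ?_
    push_cast
    have h3 : (m : ℝ) ≤ Z := by exact_mod_cast hm2
    have h4 : (n : ℝ) ≤ Z := by exact_mod_cast hn2
    nlinarith [(Nat.cast_nonneg m : (0 : ℝ) ≤ m), (Nat.cast_nonneg n : (0 : ℝ) ≤ n)]
  have h3 : 0 ≤ ∏ p ∈ od (m * n), (p : ℝ) := Finset.prod_nonneg fun p _ => Nat.cast_nonneg p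
  have h4 : (∏ p ∈ od (m * n), (p : ℝ)) ^ 2 ≤ (Z : ℝ) ^ 4 := by
    calc (∏ p ∈ od (m * n), (p : ℝ)) ^ 2 ≤ ((Z : ℝ) ^ 2) ^ 2 := pow_le_pow_left₀ h3 h2 2
      _ = (Z : ℝ) ^ 4 := by ring
  have e2 : 1 / ((OS Q).card : ℝ) * ∑ q ∈ OS Q, ∏ p ∈ od (m * n), zqp ψ q p - kapP (bps ψ) (m * n) =
      (∑ q ∈ OS Q, ∏ p ∈ od (m * n), zqp ψ q p - (OS Q).card * ∏ p ∈ od (m * n), bps ψ p) / (OS Q).card := by
    unfold kapP
    field_simp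
  rw [e2, abs_div, abs_of_pos hcard, div_le_div_iff₀ hcard (Real.sqrt_pos.2 hQ0)]
  have h5 : Real.sqrt Q * Real.sqrt Q = Q := Real.mul_self_sqrt hQ0.le
  calc |∑ q ∈ OS Q, ∏ p ∈ od (m * n), zqp ψ q p - (OS Q).card * ∏ p ∈ od (m * n), bps ψ p| * Real.sqrt Q ≤
        (C * (∏ p ∈ od (m * n), (p : ℝ)) ^ 2 * Real.sqrt Q) * Real.sqrt Q := mul_le_mul_of_nonneg_right h1 (Real.sqrt_nonneg _)
    _ ≤ (C * (Z : ℝ) ^ 4 * Real.sqrt Q) * Real.sqrt Q := by gcongr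
    _ = C * (Z : ℝ) ^ 4 * Q := by rw [mul_assoc, h5]
    _ ≤ C * (Z : ℝ) ^ 4 * (8 * (OS Q).card) := by
        refine mul_le_mul_of_nonneg_left (by linarith) (by positivity)
    _ = 8 * C * (Z : ℝ) ^ 4 * (OS Q).card := by ring

theorem corr_Bp' {b : ℕ → ℝ} (hb : Bias b) {Z m n : ℕ} (hm : 1 ≤ m) (hm2 : m ≤ Z) (hn : 1 ≤ n) (hn2 : n ≤ Z) :
    ∫ T, chB T m * (starRingEnd ℂ) (chB T n) ∂(PBp b (PP Z)) = (kapP b (m * n) : ℂ) :=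
  corr_Bp hb hm hn (od_sub hm hm2 hn hn2)

/-- the mean square bound for the biased signs -/
theorem ms_Bp {b : ℕ → ℝ} (hb : Bias b) {Z : ℕ} (γ : ℕ → ℂ) (c : ℝ) (hc0 : 0 ≤ c) (hγ : ∀ n : ℕ, 1 ≤ n → ‖γ n‖ ≤ c / Real.sqrt n)
    (N : ℕ) (hN : 1 ≤ N) (hNZ : N ^ 3 ≤ Z) :
    ∫ T, ‖∑ n ∈ Finset.Icc 1 N, γ n * chB T n‖ ^ 2 ∂(PBp b (PP Z)) ≤ 2 * (c ^ 2 * (2 + Real.log N) ^ 4) := by
  have hNZ' : N ≤ Z := (Nat.le_self_pow (by norm_num) N).trans hNZ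
  refine ms_ofP (K := kapP b) (fun hj ha => kapP_le hb hj ha) (kapP_nonneg hb) (cf_Bp hb (PP Z) Z) (e := 0)
    (fun m n hm hm2 hn hn2 => ?_) γ c hc0 hγ hN hNZ' (by norm_num) le_rfl
  rw [corr_Bp' hb hm hm2 hn hn2, Complex.norm_real, Real.norm_eq_abs, abs_of_nonneg (kapP_nonneg hb _), add_zero]

/-- for `Q` large in terms of `Z` the real characters have the correlations of the biased signs -/
theorem Q_largeP : ∃ C : ℝ, 0 < C ∧ ∀ (ψ : ℕ → ℤ), PsiOK ψ → ∀ Q Z : ℕ, 1 ≤ Z → C * (Z : ℝ) ^ 10 ≤ Q → 0 < (OS Q).card ∧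
    (∀ m n : ℕ, 1 ≤ m → m ≤ Z → 1 ≤ n → n ≤ Z →
      ‖(∫ q, chQp ψ q m * (starRingEnd ℂ) (chQp ψ q n) ∂(PQ Q)) - (kapP (bps ψ) (m * n) : ℂ)‖ ≤ 2 / (Z : ℝ)) := by
  obtain ⟨C, hC, h⟩ := j1psi Pool.Agent.Helper31.Q3.j1a Pool.Agent.Helper11.Q3.j1b
  refine ⟨16 * C ^ 2 + 1, by positivity, fun ψ hψ Q Z hZ hQ => ?_⟩
  have hZ1 : (1 : ℝ) ≤ Z := by exact_mod_cast hZ
  have hQ1 : (1 : ℝ) ≤ Q := by
    have h1 : (1 : ℝ) ≤ (Z : ℝ) ^ 10 := one_le_pow₀ hZ1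
    nlinarith [sq_nonneg C]
  have hQ1' : 1 ≤ Q := by exact_mod_cast hQ1
  have hcard := Pool.Agent.Helper11.Q3.j1d Q
  have hc0 : (0 : ℝ) < (OS Q).card := by linarith [div_pos (by linarith : (0 : ℝ) < Q) (by norm_num : (0 : ℝ) < 8)]
  refine ⟨by exact_mod_cast hc0, fun m n hm hm2 hn hn2 => ?_⟩
  refine (corr_Qp hψ hC.le hQ1' hcard (h ψ hψ.le hψ.odd Q) hm hm2 hn hn2).trans ?_
  have hsq : 4 * C * (Z : ℝ) ^ 5 ≤ Real.sqrt Q := by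
    apply Real.le_sqrt_of_sq_le
    calc (4 * C * (Z : ℝ) ^ 5) ^ 2 = 16 * C ^ 2 * (Z : ℝ) ^ 10 := by ring
      _ ≤ (16 * C ^ 2 + 1) * (Z : ℝ) ^ 10 := by
          have : (0 : ℝ) ≤ (Z : ℝ) ^ 10 := by positivity
          nlinarith
      _ ≤ Q := hQ
  rw [div_le_div_iff₀ (Real.sqrt_pos.2 (by linarith)) (by linarith)]
  calc 8 * C * (Z : ℝ) ^ 4 * Z = 2 * (4 * C * (Z : ℝ) ^ 5) := by ring
    _ ≤ 2 * Real.sqrt Q := by linarith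

/-- the difference of the correlations, in the form of `chf2` -/
theorem corr_QBp {ψ : ℕ → ℤ} {Q Z : ℕ} (h : ∀ m n : ℕ, 1 ≤ m → m ≤ Z → 1 ≤ n → n ≤ Z →
      ‖(∫ q, chQp ψ q m * (starRingEnd ℂ) (chQp ψ q n) ∂(PQ Q)) - (kapP (bps ψ) (m * n) : ℂ)‖ ≤ 2 / (Z : ℝ)) :
    ∀ m n : ℕ, 1 ≤ m → m ≤ Z → 1 ≤ n → n ≤ Z → ‖(∫ q, chQp ψ q m * (starRingEnd ℂ) (chQp ψ q n) ∂(PQ Q)) -
      ∫ T, chB T m * (starRingEnd ℂ) (chB T n) ∂(PBp (bps ψ) (PP Z))‖ ≤ 2 / (Z : ℝ) := by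
  intro m n hm hm2 hn hn2
  rw [corr_Bp' (bias_bps ψ) hm hm2 hn hn2]
  exact h m n hm hm2 hn hn2

/-- the mean square bound for the real characters -/
theorem ms_Qp {ψ : ℕ → ℤ} (hψ : PsiOK ψ) {Q Z : ℕ} (hQ : 0 < (OS Q).card) (h : ∀ m n : ℕ, 1 ≤ m → m ≤ Z → 1 ≤ n → n ≤ Z →
      ‖(∫ q, chQp ψ q m * (starRingEnd ℂ) (chQp ψ q n) ∂(PQ Q)) - (kapP (bps ψ) (m * n) : ℂ)‖ ≤ 2 / (Z : ℝ))
    (γ : ℕ → ℂ) (c : ℝ) (hc0 : 0 ≤ c) (hγ : ∀ n : ℕ, 1 ≤ n → ‖γ n‖ ≤ c / Real.sqrt n) (N : ℕ) (hN : 1 ≤ N)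
    (hNZ : N ^ 3 ≤ Z) : ∫ q, ‖∑ n ∈ Finset.Icc 1 N, γ n * chQp ψ q n‖ ^ 2 ∂(PQ Q) ≤ 2 * (c ^ 2 * (2 + Real.log N) ^ 4) := by
  have hb := bias_bps ψ
  have hNZ' : N ≤ Z := (Nat.le_self_pow (by norm_num) N).trans hNZ
  have hN1 : (1 : ℝ) ≤ N := by exact_mod_cast hN
  have hZ0 : (0 : ℝ) < Z := by
    have : (N : ℝ) ≤ Z := by exact_mod_cast hNZ'
    linarith
  refine ms_ofP (K := kapP (bps ψ)) (fun hj ha => kapP_le hb hj ha) (kapP_nonneg hb) (cf_Qp hψ hQ Z) (e := 2 / (Z : ℝ))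
    (fun m n hm hm2 hn hn2 => ?_) γ c hc0 hγ hN hNZ' ?_ (by positivity)
  · have h1 := h m n hm hm2 hn hn2
    have h2 : ‖∫ q, chQp ψ q m * (starRingEnd ℂ) (chQp ψ q n) ∂(PQ Q)‖ ≤ ‖(∫ q, chQp ψ q m * (starRingEnd ℂ) (chQp ψ q n) ∂(PQ Q)) -
        (kapP (bps ψ) (m * n) : ℂ)‖ + ‖(kapP (bps ψ) (m * n) : ℂ)‖ := by
      have := norm_add_le ((∫ q, chQp ψ q m * (starRingEnd ℂ) (chQp ψ q n) ∂(PQ Q)) - (kapP (bps ψ) (m * n) : ℂ)) (kapP (bps ψ) (m * n) : ℂ)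
      rwa [sub_add_cancel] at this
    rw [Complex.norm_real, Real.norm_eq_abs, abs_of_nonneg (kapP_nonneg hb _)] at h2
    linarith
  · rw [mul_div_assoc', div_le_iff₀ hZ0]
    have h3 : ((N : ℝ)) ^ 3 ≤ Z := by exact_mod_cast hNZ
    have h4 : (N : ℝ) ^ 2 ≤ (N : ℝ) ^ 3 := pow_le_pow_right₀ hN1 (by norm_num)
    linarith

/-- the moment bound for the biased signs (input of `chf2`) -/
theorem mom_Bp {b : ℕ → ℝ} (hb : Bias b) (hL : LogC a α) {r : ℕ} (hr : 9 ≤ r) {ξ : ℕ → ℂ} (hξ : ∀ j, ‖ξ j‖ ≤ 2 ^ (40 * r)) {N : ℕ}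
    (hN : Y (r + 1) ≤ N) : ∫ T, LF r α ξ (chB T) ^ (2 * 2 ^ (122 * r)) ∂(PBp b (PP N)) ≤
      ((2 * 2 ^ (122 * r)).factorial : ℝ) * Real.exp (-(2 : ℝ) ^ (122 * r)) := by
  have h1 := khLP hb hL (r := r) (by omega) (S := PP N) (Pool.Agent.Helper11.DR.PP_mono hN) hξ (g0 := fun _ => 1) (fun _ _ _ => by simp)
  rw [PBp_int hb]
  have e1 : ∀ T : Finset ℕ, LF r α ξ (chB T) = LF r α ξ (fun n => (1 : ℂ) * gt T ∅ n) := by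
    intro T
    congr 1
    funext n
    rw [chB_eq, one_mul]
  simp_rw [e1]
  exact h1

/-- the moments of order `40 r` of the biased signs -/
theorem momS_Bp {b : ℕ → ℝ} (hb : Bias b) (hL : LogC a α) {r N : ℕ} (hN : Y (r + 1) ≤ N) (A : ℕ → ℂ)
    (hA : ∀ m, 1 ≤ m → ‖A m‖ ≤ ‖α m‖ / Real.sqrt m) (k : ℕ) :
    ∫ T, (∑ m ∈ Icc 1 (Y (r + 1)), A m * chB T m).re ^ (2 * k) ∂(PBp b (PP N)) ≤
      ((2 * k).factorial : ℝ) * ((36 : ℝ) ^ k)⁻¹ * (2 * Real.exp (37 * ∑ p ∈ PP (Y (r + 1)), (1 : ℝ) / p)) := by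
  have h1 := khSP hb hL (S := PP N) (Pool.Agent.Helper11.DR.PP_mono hN) hA (g0 := fun _ => 1) (fun _ _ _ => by simp) k
  rw [PBp_int hb]
  have e1 : ∀ T : Finset ℕ, ∑ m ∈ Icc 1 (Y (r + 1)), A m * chB T m = ∑ m ∈ Icc 1 (Y (r + 1)), A m * ((1 : ℂ) * gt T ∅ m) := by
    intro T
    refine sum_congr rfl fun m _ => ?_
    rw [chB_eq, one_mul]
  simp_rw [e1]
  exact h1

/-- SUB for the real characters -/
theorem sub_Qp (hL : LogC a α) : ∀ η : ℝ, 0 < η → ∃ r0 : ℕ, ∀ r : ℕ, r0 ≤ r → ∀ (ψ : ℕ → ℤ), PsiOK ψ → ∀ Q : ℕ, 0 < (OS Q).card →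
    (∀ m n : ℕ, 1 ≤ m → m ≤ Y (150 * r) → 1 ≤ n → n ≤ Y (150 * r) →
      ‖(∫ q, chQp ψ q m * (starRingEnd ℂ) (chQp ψ q n) ∂(PQ Q)) - (kapP (bps ψ) (m * n) : ℂ)‖ ≤ 2 / (Y (150 * r) : ℝ)) →
    (PQ Q).real {q | ∃ j : ℕ, j < NG r ∧ 20 * (r : ℝ) < ‖PS r α (chQp ψ q) (tj r j)‖} ≤ η := by
  intro η hη
  obtain ⟨r0, hr0⟩ := sub2P hL η hη
  refine ⟨max r0 1, fun r hr ψ hψ Q hQ hcorr => ?_⟩
  have hr1 : 1 ≤ r := (le_max_right _ _).trans hr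
  exact hr0 r ((le_max_left _ _).trans hr) _ _ _ _ _ _ (cf_Qp hψ hQ _) (cf_Bp (bias_bps ψ) _ _) (corr_QBp hcorr)
    fun A hA => momS_Bp (bias_bps ψ) hL (Pool.Agent.Helper96.AF.Y_mono (by omega)) A hA _

/-- SUB for the biased signs -/
theorem sub_Bp (hL : LogC a α) : ∀ η : ℝ, 0 < η → ∃ r0 : ℕ, ∀ r : ℕ, r0 ≤ r → ∀ (b : ℕ → ℝ), Bias b → ∀ N : ℕ, Y (r + 1) ≤ N →
    (PBp b (PP N)).real {T | ∃ j : ℕ, j < NG r ∧ 20 * (r : ℝ) < ‖PS r α (chB T) (tj r j)‖} ≤ η := by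
  intro η hη
  obtain ⟨r0, hr0⟩ := sub2P hL η hη
  refine ⟨r0, fun r hr b hb N hN => ?_⟩
  refine hr0 r hr _ _ _ _ _ _ (cf_Bp hb _ _) (cf_Bp hb _ _) (fun m n _ _ _ _ => ?_) fun A hA => momS_Bp hb hL hN A hA _
  rw [sub_self, norm_zero]
  positivity

open Pool.Agent.Q3psi in
theorem psiOK_ps (j : Fin 4) : PsiOK (ps j) where
  le := fun n => by
    unfold ps
    fin_cases j
    · simp
    · simp only [ZMod.χ₄_nat_eq_if_mod_four]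
      split_ifs <;> norm_num
    · simp only [ZMod.χ₈_nat_eq_if_mod_eight]
      split_ifs <;> norm_num
    · simp only [ZMod.χ₈'_nat_eq_if_mod_eight]
      split_ifs <;> norm_num
  odd := fun n hn => by
    have h2 : n % 2 ≠ 0 := by
      have := Nat.odd_iff.1 hn
      omega
    unfold ps
    fin_cases j
    · simp
    · simp only [ZMod.χ₄_nat_eq_if_mod_four, if_neg h2]
      split_ifs <;> norm_num
    · simp only [ZMod.χ₈_nat_eq_if_mod_eight, if_neg h2]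
      split_ifs <;> norm_num
    · simp only [ZMod.χ₈'_nat_eq_if_mod_eight, if_neg h2]
      split_ifs <;> norm_num

end Pool.Agent.Helper5.Psi
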